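import Mathlib

open Filter Topology Set
open scoped RealInnerProductSpace

namespace Pool.Agent.Results.MP_3684f0_an.Exposed

variable {H : Type*} [NormedAddCommGroup H] [InnerProductSpace ℝ H]

/-- `p` is a point of `C` nearest to `x`. -/
def IsNearest (C : Set H) (x p : H) : Prop := p ∈ C ∧ ∀ y ∈ C, ‖x - p‖ ≤ ‖x - y‖

/-- `v` strongly exposes `p` in `C`. -/
def StronglyExposes (C : Set H) (v p : H) : Prop :=
  p ∈ C ∧ IsLUB ((fun y => ⟪v, y⟫) '' C) ⟪v, p⟫ ∧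
    ∀ y : ℕ → H, (∀ k, y k ∈ C) → Tendsto (fun k => ⟪v, y k⟫) atTop (𝓝 ⟪v, p⟫) →
      Tendsto y atTop (𝓝 p)

lemma aux {C : Set H} {x p : H} (hp : p ∈ C)
    (h : ∀ c ∈ C, ⟪x - p, c - p⟫ ≤ -‖c - p‖ ^ 2 / 2) :
    (∀ q, IsNearest C x q ↔ q = p) ∧ StronglyExposes C (x - p) p := by
  have e : ∀ c, ‖x - c‖ ^ 2 = ‖x - p‖ ^ 2 - 2 * ⟪x - p, c - p⟫ + ‖c - p‖ ^ 2 := fun c => by
    rw [← norm_sub_sq_real]
    congr 2
    abel
  refine ⟨fun q => ⟨fun ⟨hq, h1⟩ => ?_, ?_⟩, hp, ⟨?_, fun b hb => hb ⟨p, hp, rfl⟩⟩,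
    fun y hy ht => ?_⟩
  · have h2 := pow_le_pow_left₀ (norm_nonneg _) (h1 p hp) 2
    have h3 := h q hq
    rw [e q] at h2
    rw [← sub_eq_zero, ← norm_eq_zero, ← sq_eq_zero_iff]
    exact le_antisymm (by linarith) (sq_nonneg _)
  · rintro rfl
    refine ⟨hp, fun y hy => (pow_le_pow_iff_left₀ (norm_nonneg _) (norm_nonneg _) two_ne_zero).1 ?_⟩
    have := h y hy
    rw [e y]
    nlinarith [sq_nonneg ‖y - q‖]
  · rintro _ ⟨c, hc, rfl⟩
    have := h c hc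
    rw [inner_sub_right] at this
    nlinarith [sq_nonneg ‖c - p‖]
  · have h1 : Tendsto (fun k => 2 * (⟪x - p, p⟫ - ⟪x - p, y k⟫)) atTop (𝓝 0) := by
      simpa using (ht.const_sub ⟪x - p, p⟫).const_mul 2
    have h2 : Tendsto (fun k => ‖y k - p‖ ^ 2) atTop (𝓝 0) :=
      squeeze_zero (fun k => sq_nonneg _) (fun k => by
        have := h _ (hy k)
        rw [inner_sub_right] at this
        linarith) h1
    rw [tendsto_iff_norm_sub_tendsto_zero]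
    simpa using h2.sqrt

theorem result (H : Type*) [NormedAddCommGroup H] [InnerProductSpace ℝ H] (ι : Type*) [Finite ι]
    (C : ι → Set H) (hne : ∀ i, (C i).Nonempty) (hC : ∀ i, IsCompact (C i)) :
    ∃ (x : H) (p : ι → H), ∀ i,
      (∀ q, IsNearest (C i) x q ↔ q = p i) ∧ StronglyExposes (C i) (x - p i) (p i) := by
  classical
  have := Fintype.ofFinite ι
  obtain ⟨p, hp, hmax⟩ := (isCompact_univ_pi hC).exists_isMaxOn (univ_pi_nonempty_iff.2 hne)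
    (f := fun c : ι → H => ‖∑ i, c i‖ ^ 2 - (∑ i, ‖c i‖ ^ 2) / 2) (by fun_prop)
  refine ⟨(2 : ℝ) • ∑ i, p i, p, fun i => aux (hp i trivial) fun c hc => ?_⟩
  have h1 : ‖∑ j, Function.update p i c j‖ ^ 2 - (∑ j, ‖Function.update p i c j‖ ^ 2) / 2 ≤
      ‖∑ i, p i‖ ^ 2 - (∑ i, ‖p i‖ ^ 2) / 2 := hmax (fun j _ => by
    by_cases h : j = i
    · simpa [h] using hc
    · simpa [h] using hp j trivial)
  have h2 : ∑ j, Function.update p i c j = ∑ j, p j + (c - p i) := by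
    rw [Finset.sum_update_of_mem (Finset.mem_univ i),
      ← Finset.add_sum_erase _ p (Finset.mem_univ i), Finset.sdiff_singleton_eq_erase]
    abel
  have h3 : ∑ j, ‖Function.update p i c j‖ ^ 2 = ∑ j, ‖p j‖ ^ 2 + (‖c‖ ^ 2 - ‖p i‖ ^ 2) := by
    simp only [Function.apply_update (fun _ (v : H) => ‖v‖ ^ 2)]
    rw [Finset.sum_update_of_mem (Finset.mem_univ i),
      ← Finset.add_sum_erase _ (fun j => ‖p j‖ ^ 2) (Finset.mem_univ i),
      Finset.sdiff_singleton_eq_erase]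
    ring
  have h4 : ‖c‖ ^ 2 = ‖p i‖ ^ 2 + 2 * ⟪p i, c - p i⟫ + ‖c - p i‖ ^ 2 := by
    rw [← norm_add_sq_real, add_sub_cancel]
  rw [h2, h3, norm_add_sq_real, h4] at h1
  rw [inner_sub_left, real_inner_smul_left]
  linarith

end Pool.Agent.Results.MP_3684f0_an.Exposed
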